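import Pool.Agent.H16.TO.Targets

/-!
# Module LS of the board tw_modules (MP_64fb07_lc): a row of cells is a box
-/

set_option autoImplicit false

namespace Pool.Agent.H21.TW

open Pool.Agent.H16.TO

theorem wt_congr {n n' : ℕ → ℕ} {j : ℕ} (h : ∀ i < j, n' i = n i) : wt n' j = wt n j := by
  unfold wt
  exact Finset.prod_congr rfl fun i hi => h i (Finset.mem_range.1 hi)

theorem wt_pos {n : ℕ → ℕ} {j : ℕ} (h : ∀ i < j, 0 < n i) : 0 < wt n j :=
  Finset.prod_pos fun i hi => h i (Finset.mem_range.1 hi)

theorem wt_succ (n : ℕ → ℕ) (j : ℕ) : wt n (j + 1) = wt n j * n j :=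
  Finset.prod_range_succ _ _

/-- carries, only the first `j` sides matter -/
theorem cy_below (hCY : T_CY) {n : ℕ → ℕ} {j : ℕ} (h : ∀ i < j, 0 < n i) (k : ℕ) :
    (∀ i < j, dig n k i + 1 = n i) ↔ (k + 1) % wt n j = 0 := by
  have h1 := hCY (fun i => if i < j then n i else 1) (fun i => by
    split_ifs with hi
    · exact h i hi
    · exact one_pos) k j
  have h2 : wt (fun i => if i < j then n i else 1) j = wt n j :=
    wt_congr fun i hi => if_pos hi
  rw [h2] at h1
  rw [← h1]
  refine forall_congr' fun i => forall_congr' fun hi => ?_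
  have h3 : wt (fun i => if i < j then n i else 1) i = wt n i :=
    wt_congr fun i' hi' => if_pos (lt_trans hi' hi)
  have h4 : (fun i => if i < j then n i else 1) i = n i := if_pos hi
  unfold dig
  rw [h3, h4, if_pos hi]

/-- a row of cells is a box -/
theorem pf_ls : T_LV → T_CY → T_LS := by
  intro hLV hCY r T G H K cl s hK hsys
  obtain ⟨hfirst, hlast, -, hstep, h0, -, hlink⟩ := hsys
  obtain ⟨S, hS⟩ : ∃ S : ℕ → ℕ, S = fun j => if j < r then s j else K := ⟨_, rfl⟩
  obtain ⟨n, hn⟩ : ∃ n : ℕ → ℕ, n = fun i => if i < r then S (i + 1) / S i else 1 := ⟨_, rfl⟩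
  have hSlt : ∀ j, j < r → S j = s j := by
    intro j hj
    rw [hS]
    exact if_pos hj
  have hSr : ∀ j, r ≤ j → S j = K := by
    intro j hj
    rw [hS]
    exact if_neg (by omega)
  have hspos : ∀ j < r, 0 < s j := by
    intro j hj
    exact ((h0 j hj).2 0 hK).1 (hfirst j hj).1
  have hSpos : ∀ j, 0 < S j := by
    intro j
    by_cases hj : j < r
    · rw [hSlt j hj]
      exact hspos j hj
    · rw [hSr j (by omega)]
      exact hK
  have hSle : ∀ j, S j ≤ K := by
    intro j
    by_cases hj : j < r
    · rw [hSlt j hj]
      exact (h0 j hj).1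
    · rw [hSr j (by omega)]
  have main : ∀ j, j ≤ r → S j = wt n j ∧ wt n j ∣ K ∧ (∀ i < j, 0 < n i) ∧
      ∀ i < j, ∀ k < K, (fl (cl k) 2 i = true ↔ dig n k i = 0) ∧
        (fl (cl k) 3 i = true ↔ dig n k i + 1 = n i) := by
    intro j
    induction j with
    | zero =>
      intro _
      have hw : wt n 0 = 1 := by
        unfold wt
        simp
      refine ⟨?_, ?_, ?_, ?_⟩
      · rw [hw]
        have hc : carry (cl 0) 0 := fun i hi => absurd hi (Nat.not_lt_zero i)
        by_cases hr : 0 < r
        · rw [hSlt 0 hr]
          have h1 := hspos 0 hr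
          have h2 := (h0 0 hr).1
          by_cases hK1 : 1 < K
          · have h3 := ((hstep 0 (by omega)).2 0 hr).1
            have h4 : ¬ fl (cl (0 + 1)) 0 0 = true := by
              rw [h3]
              rintro ⟨-, h5⟩
              exact h5 hc
            rw [(h0 0 hr).2 (0 + 1) (by omega)] at h4
            omega
          · omega
        · rw [hSr 0 (by omega)]
          by_contra hK1
          have h3 := (hstep 0 (by omega)).1
          exact h3 (fun i hi => absurd hi (by omega))
      · rw [hw]
        exact one_dvd K
      · intro i hi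
        omega
      · intro i hi
        omega
    | succ j ih =>
      intro hj
      obtain ⟨e1, e2, e3, e4⟩ := ih (by omega)
      have hjr : j < r := by omega
      -- carries
      have hcar : ∀ k < K, (carry (cl k) j ↔ (k + 1) % wt n j = 0) := by
        intro k hk
        rw [← cy_below hCY e3 k]
        unfold carry
        exact forall_congr' fun i => forall_congr' fun hi => (e4 i hi k hk).2
      have hcar1 : ∀ k < K, (carry (cl k) (j + 1) ↔
          ((k + 1) % wt n j = 0 ∧ fl (cl k) 3 j = true)) := by
        intro k hk
        rw [← hcar k hk]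
        unfold carry
        constructor
        · intro h
          exact ⟨fun i hi => h i (by omega), h j (by omega)⟩
        · rintro ⟨h1, h2⟩ i hi
          rcases Nat.lt_succ_iff_lt_or_eq.1 hi with h3 | h3
          · exact h1 i h3
          · rw [h3]
            exact h2
      have hwpos : 0 < wt n j := wt_pos e3
      -- the last position before the next stride is a carry
      have hnc : ∀ k, k + 1 < S (j + 1) → ¬ carry (cl k) (j + 1) := by
        intro k hk
        have hkK : k + 1 < K := lt_of_lt_of_le hk (hSle _)
        by_cases hj1 : j + 1 < r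
        · rw [hSlt _ hj1] at hk
          have h1 := ((hstep k hkK).2 (j + 1) hj1).1
          exact (h1.1 (((h0 _ hj1).2 (k + 1) hkK).2 hk)).2
        · have h1 := (hstep k hkK).1
          exact fun h2 => h1 fun i hi => h2 i (by omega)
      have hyc : carry (cl (S (j + 1) - 1)) (j + 1) := by
        by_cases hsK : S (j + 1) < K
        · have hj1 : j + 1 < r := by
            by_contra h
            rw [hSr _ (by omega)] at hsK
            omega
          have hp := hSpos (j + 1)
          have h1 := ((hstep (S (j + 1) - 1) (by omega)).2 (j + 1) hj1).1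
          have h2 : S (j + 1) - 1 + 1 = S (j + 1) := by omega
          rw [h2] at h1
          have h3 : ¬ fl (cl (S (j + 1))) 0 (j + 1) = true := by
            rw [(h0 _ hj1).2 _ hsK, hSlt _ hj1]
            exact lt_irrefl _
          have h4 : fl (cl (S (j + 1) - 1)) 0 (j + 1) = true := by
            rw [(h0 _ hj1).2 _ (by omega), ← hSlt _ hj1]
            omega
          by_contra h5
          exact h3 (h1.2 ⟨h4, h5⟩)
        · have h1 : S (j + 1) = K := le_antisymm (hSle _) (by omega)
          rw [h1]
          intro i hi
          exact hlast i (by omega)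
      have hpK := hSpos (j + 1)
      have hlK := hSle (j + 1)
      have hyc' := (hcar1 (S (j + 1) - 1) (by omega)).1 hyc
      rw [Nat.sub_add_cancel hpK] at hyc'
      obtain ⟨m, hm0, hm1, hm2, hm3⟩ := hLV K (wt n j) (S (j + 1)) (fun k => fl (cl k) 2 j)
        (fun k => fl (cl k) 3 j) hK hwpos e2 ((hfirst j hjr).2) (hlast j hjr)
        (fun k hk h => by
          have h1 := ((hstep k hk).2 j hjr).2.2.1
          exact h1 (fun h2 => h ((hcar k (by omega)).1 h2)))
        (fun k hk h => by
          have h1 := ((hstep k hk).2 j hjr).2.2.2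
          exact h1 ((hcar k (by omega)).2 h))
        hpK hlK
        (fun k hk h => hnc k hk ((hcar1 k (by omega)).2 h))
        hyc'.1 hyc'.2
        (fun k hk => by
          have hj1 : j + 1 < r := by
            by_contra h
            rw [hSr _ (by omega)] at hk
            omega
          rw [hSlt _ hj1] at hk ⊢
          exact ((hlink (j + 1) hj1 k hk).1 j (by omega)).2)
      have hnj : n j = m := by
        have h1 : n j = S (j + 1) / S j := by
          rw [hn]
          exact if_pos hjr
        rw [h1, hm1, e1]
        exact Nat.mul_div_cancel_left m hwpos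
      refine ⟨?_, ?_, ?_, ?_⟩
      · rw [wt_succ, hnj]
        exact hm1
      · rw [wt_succ, hnj, ← hm1]
        exact hm2
      · intro i hi
        rcases Nat.lt_succ_iff_lt_or_eq.1 hi with h | h
        · exact e3 i h
        · rw [h, hnj]
          exact hm0
      · intro i hi k hk
        rcases Nat.lt_succ_iff_lt_or_eq.1 hi with h | h
        · exact e4 i h k hk
        · rw [h]
          unfold dig
          rw [hnj]
          exact ⟨(hm3 k hk).2, (hm3 k hk).1⟩
  obtain ⟨f1, -, f3, f4⟩ := main r le_rfl
  refine ⟨n, ⟨?_, ?_⟩, ?_, ?_, ?_⟩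
  · intro i
    by_cases hi : i < r
    · exact f3 i hi
    · have h1 : n i = 1 := by
        rw [hn]
        exact if_neg hi
      rw [h1]
      exact one_pos
  · intro i hi
    rw [hn]
    exact if_neg (by omega)
  · intro j hj
    rw [← hSlt j hj]
    exact (main j (by omega)).1
  · rw [← f1, hSr r le_rfl]
  · intro k hk j hj
    exact f4 j hj k hk

end Pool.Agent.H21.TW
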