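import Pool.Agent.H16.TO.Targets

/-!
# Module TA of the board tw_modules (MP_64fb07_lc): from bundles to cells
-/

set_option autoImplicit false

namespace Pool.Agent.H21.TW

open Pool.Agent.H16.TO

theorem succ_mod_lt {a m : ℕ} (h : a % m + 1 < m) :
    (a + 1) % m = a % m + 1 ∧ (a + 1) / m = a / m := by
  have h1 : a + 1 = m * (a / m) + (a % m + 1) := by
    rw [← add_assoc, Nat.div_add_mod]
  constructor
  · conv_lhs => rw [h1]
    rw [Nat.mul_add_mod, Nat.mod_eq_of_lt h]
  · conv_lhs => rw [h1]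
    rw [Nat.mul_add_div (by omega), Nat.div_eq_of_lt h, add_zero]

theorem succ_mod_eq {a m : ℕ} (hm : 0 < m) (h : a % m + 1 = m) :
    (a + 1) % m = 0 ∧ (a + 1) / m = a / m + 1 := by
  have h1 : a + 1 = m * (a / m + 1) := by
    have h2 := Nat.div_add_mod a m
    rw [mul_add, mul_one]
    omega
  constructor
  · rw [h1]
    exact Nat.mul_mod_right _ _
  · conv_lhs => rw [h1]
    exact Nat.mul_div_cancel_left _ hm

/-- thresholds -/
theorem thr (p : ℕ → Prop) (K : ℕ) (h : ∀ k, k + 1 < K → p (k + 1) → p k) :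
    ∃ s ≤ K, ∀ k < K, (p k ↔ k < s) := by
  induction K with
  | zero => exact ⟨0, le_rfl, fun k hk => absurd hk (Nat.not_lt_zero k)⟩
  | succ K ih =>
    obtain ⟨s, hs, h1⟩ := ih fun k hk => h k (by omega)
    by_cases hp : p K
    · refine ⟨K + 1, le_rfl, fun k hk => ⟨fun _ => hk, fun _ => ?_⟩⟩
      rcases Nat.lt_succ_iff_lt_or_eq.1 hk with h2 | h2
      · have h3 : p (K - 1) := by
          refine h (K - 1) (by omega) ?_
          rw [Nat.sub_add_cancel (by omega)]
          exact hp
        rw [h1 (K - 1) (by omega)] at h3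
        exact (h1 k h2).2 (by omega)
      · rw [h2]
        exact hp
    · refine ⟨s, by omega, fun k hk => ?_⟩
      rcases Nat.lt_succ_iff_lt_or_eq.1 hk with h2 | h2
      · exact h1 k h2
      · rw [h2]
        exact ⟨fun h3 => absurd h3 hp, fun h3 => absurd h3 (by omega)⟩

/-- from bundles to cells -/
theorem pf_ta : T_SH → T_TA := by
  intro hSH r T G H N lab key hr hN hsys
  obtain ⟨hinj, hU, hF1, hL1, hC1, hF2, hL2, hC2, hAg⟩ := hsys
  obtain ⟨m, hm⟩ : ∃ m, m = 2 * r := ⟨_, rfl⟩
  have hm0 : 0 < m := by omega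
  -- positions in the bundle
  have hpos : ∀ a, a < N → (lab a).1.val = a % m := by
    intro a
    induction a with
    | zero =>
      intro _
      rw [Nat.zero_mod]
      exact hF1.1
    | succ a ih =>
      intro ha
      have h1 := ih (by omega)
      have h2 := (lab (a + 1)).1.isLt
      rcases hC1 a ha with ⟨h3, -⟩ | ⟨h3, h4, -⟩
      · have h5 : a % m + 1 < m := by omega
        rw [(succ_mod_lt h5).1, h3, h1]
      · have h5 : a % m + 1 = m := by omega
        rw [(succ_mod_eq hm0 h5).1, h4]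
  obtain ⟨cl, hcl⟩ : ∃ cl : ℕ → Cell r T, ∀ k, cl k = (lab (m * k)).2 := ⟨_, fun _ => rfl⟩
  have hcell : ∀ a, a < N → (lab a).2 = cl (a / m) := by
    intro a
    induction a with
    | zero =>
      intro _
      rw [Nat.zero_div, hcl, mul_zero]
    | succ a ih =>
      intro ha
      have h0 := hpos a (by omega)
      have h1 := ih (by omega)
      have h2 := (lab (a + 1)).1.isLt
      rcases hC1 a ha with ⟨h3, h4⟩ | ⟨h3, h4, -⟩
      · have h5 : a % m + 1 < m := by omega
        rw [(succ_mod_lt h5).2, h4, h1]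
      · have h5 : a % m + 1 = m := by omega
        have h6 := (succ_mod_eq hm0 h5).1
        have h7 := Nat.div_add_mod (a + 1) m
        rw [h6, add_zero] at h7
        rw [hcl, h7]
  -- the number of cells
  have hlast : (N - 1) % m + 1 = m := by
    have h1 := hL1.1
    rw [hpos (N - 1) (by omega)] at h1
    omega
  obtain ⟨K, hKdef⟩ : ∃ K, K = N / m := ⟨_, rfl⟩
  have hN1 : N % m = 0 ∧ N / m = (N - 1) / m + 1 := by
    have h1 := succ_mod_eq hm0 hlast
    rw [Nat.sub_add_cancel hN] at h1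
    exact h1
  have hNK : N = m * K := by
    have h1 := Nat.div_add_mod N m
    rw [hN1.1, add_zero] at h1
    rw [hKdef, h1]
  have hK : 0 < K := by
    rw [hKdef, hN1.2]
    exact Nat.succ_pos _
  have hmul : ∀ k < K, ∀ t < m, m * k + t < N ∧ (m * k + t) % m = t ∧ (m * k + t) / m = k := by
    intro k hk t ht
    refine ⟨?_, ?_, ?_⟩
    · have h1 : m * (k + 1) ≤ m * K := Nat.mul_le_mul_left m hk
      rw [mul_add, mul_one] at h1
      omega
    · rw [Nat.mul_add_mod, Nat.mod_eq_of_lt ht]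
    · rw [Nat.mul_add_div hm0, Nat.div_eq_of_lt ht, add_zero]
  have hdivlt : ∀ a < N, a / m < K := by
    intro a ha
    rw [Nat.div_lt_iff_lt_mul hm0, mul_comm, ← hNK]
    exact ha
  -- the cells
  have hcF : CellFirst (cl 0) := by
    rw [hcl, mul_zero]
    exact hF1.2
  have hcL : CellLast (cl (K - 1)) := by
    have h1 := hL1.2
    rw [hcell (N - 1) (by omega)] at h1
    have h2 : (N - 1) / m = K - 1 := by
      rw [hKdef, hN1.2]
      omega
    rw [h2] at h1
    exact h1
  have hcG : ∀ k < K, CellG G (cl k) := by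
    intro k hk
    have h1 := hU (m * k) (by have := (hmul k hk 0 hm0).1; omega)
    rw [hcl]
    exact h1
  have hcS : ∀ k, k + 1 < K → CellStep (cl k) (cl (k + 1)) := by
    intro k hk
    obtain ⟨h1, h2, h3⟩ := hmul k (by omega) (m - 1) (by omega)
    obtain ⟨h4, h5, h6⟩ := hmul (k + 1) hk 0 hm0
    have h7 : m * k + (m - 1) + 1 = m * (k + 1) + 0 := by
      rw [mul_add, mul_one]
      omega
    rw [← h7] at h4 h5 h6
    have hb := (lab (m * k + (m - 1) + 1)).1.isLt
    rcases hC1 (m * k + (m - 1)) h4 with ⟨h8, -⟩ | ⟨-, -, h8⟩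
    · rw [hpos _ h1, h2] at h8
      omega
    · rw [hcell _ h1, h3, hcell _ h4, h6] at h8
      exact h8
  -- thresholds
  have hs : ∀ j, ∃ s ≤ K, j < r → ∀ k < K, (fl (cl k) 0 j = true ↔ k < s) := by
    intro j
    by_cases hj : j < r
    · obtain ⟨s, h1, h2⟩ := thr (fun k => fl (cl k) 0 j = true) K
        (fun k hk h => (((hcS k hk).2 j hj).1.1 h).1)
      exact ⟨s, h1, fun _ => h2⟩
    · exact ⟨0, Nat.zero_le K, fun h => absurd h hj⟩
  choose s hs1 hs2 using hs
  have hA : ∀ j, ∃ A ≤ K, j < r → ∀ k < K, (fl (cl k) 1 j = false ↔ k < A) := by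
    intro j
    by_cases hj : j < r
    · obtain ⟨A, h1, h2⟩ := thr (fun k => fl (cl k) 1 j = false) K
        (fun k hk h => by
          by_contra h3
          have h4 := ((hcS k hk).2 j hj).2.1 (by simpa using h3)
          rw [h4] at h
          exact absurd h (by decide))
      exact ⟨A, h1, fun _ => h2⟩
    · exact ⟨0, Nat.zero_le K, fun h => absurd h hj⟩
  choose A hA1 hA2 using hA
  -- links
  have key1 : ∀ j < r, A j = K - s j ∧
      ∀ k < A j, Cov key N (m * k + (2 * j + 1)) (m * (k + s j) + 2 * j) := by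
    intro j hj
    have hj1 : 2 * j + 1 < m := by omega
    have hj0 : 2 * j < m := by omega
    have hE : ∀ a < N, (Elow j (lab a) ↔ ∃ k < A j, a = m * k + (2 * j + 1)) := by
      intro a ha
      unfold Elow
      rw [hpos a ha, hcell a ha, hA2 j hj _ (hdivlt a ha)]
      constructor
      · rintro ⟨h1, h2⟩
        refine ⟨a / m, h2, ?_⟩
        have h3 := Nat.div_add_mod a m
        rw [h1] at h3
        exact h3.symm
      · rintro ⟨k, h1, h2⟩
        obtain ⟨-, h3, h4⟩ := hmul k (lt_of_lt_of_le h1 (hA1 j)) _ hj1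
        rw [← h2] at h3 h4
        rw [h3, h4]
        exact ⟨rfl, h1⟩
    have hD : ∀ a < N, (Dlow j (lab a) ↔ ∃ k, s j ≤ k ∧ k < K ∧ a = m * k + 2 * j) := by
      intro a ha
      unfold Dlow
      have h0 : fl (cl (a / m)) 0 j = false ↔ s j ≤ a / m := by
        rw [← not_lt, ← hs2 j hj _ (hdivlt a ha), Bool.not_eq_true]
      rw [hpos a ha, hcell a ha, h0]
      constructor
      · rintro ⟨h1, h2⟩
        refine ⟨a / m, h2, hdivlt a ha, ?_⟩
        have h3 := Nat.div_add_mod a m
        rw [h1] at h3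
        exact h3.symm
      · rintro ⟨k, h1, h1', h2⟩
        obtain ⟨-, h3, h4⟩ := hmul k h1' _ hj0
        rw [← h2] at h3 h4
        rw [h3, h4]
        exact ⟨rfl, h1⟩
    refine hSH N K (A j) (s j) key (fun k => m * k + (2 * j + 1)) (fun k => m * k + 2 * j)
      ?_ ?_ (fun k hk => (hmul k hk _ hj1).1) (fun k hk => (hmul k hk _ hj0).1) (hA1 j) (hs1 j)
      hinj ?_ ?_ ?_ ?_ ?_
    · intro a b hab
      have h1 : m * a < m * b := Nat.mul_lt_mul_of_pos_left hab hm0
      show m * a + (2 * j + 1) < m * b + (2 * j + 1)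
      omega
    · intro a b hab
      have h1 : m * a < m * b := Nat.mul_lt_mul_of_pos_left hab hm0
      show m * a + 2 * j < m * b + 2 * j
      omega
    · intro a ha b hb hab
      have h1 := (hC2 a ha b hb hab j hj).1
      rw [hE a ha, hD b hb] at h1
      exact h1
    · intro k hk
      have hkK : k < K := lt_of_lt_of_le hk (hA1 j)
      have h1 := (hmul k hkK _ hj1).1
      by_contra hcon
      push Not at hcon
      exact hL2 _ h1 hcon j hj ((hE _ h1).2 ⟨k, hk, rfl⟩)
    · intro k hk hkK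
      have h1 := (hmul k hkK _ hj0).1
      by_contra hcon
      push Not at hcon
      exact hF2 _ h1 hcon j hj ((hD _ h1).2 ⟨k, hk, hkK, rfl⟩)
    · intro k k' hkk hk'
      have hk'K : k' < K := lt_of_lt_of_le hk' (hA1 j)
      have h1 := (hmul k (by omega) _ hj1).1
      have h2 := (hmul k' hk'K _ hj1).1
      have h3 : m * k < m * k' := Nat.mul_lt_mul_of_pos_left hkk hm0
      exact hAg _ h1 _ h2 (by omega)
        ⟨j, hj, Or.inl ⟨(hE _ h1).2 ⟨k, by omega, rfl⟩, (hE _ h2).2 ⟨k', hk', rfl⟩⟩⟩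
    · intro k k' hk hkk hk'
      have h1 := (hmul k (by omega) _ hj0).1
      have h2 := (hmul k' hk' _ hj0).1
      have h3 : m * k < m * k' := Nat.mul_lt_mul_of_pos_left hkk hm0
      exact hAg _ h1 _ h2 (by omega)
        ⟨j, hj, Or.inr ⟨(hD _ h1).2 ⟨k, hk, by omega, rfl⟩,
          (hD _ h2).2 ⟨k', by omega, hk', rfl⟩⟩⟩
  refine ⟨K, hK, by rw [← hm]; exact hNK, cl, s, hcF, hcL, hcG, hcS, ?_, ?_, ?_⟩
  · intro j hj
    exact ⟨hs1 j, hs2 j hj⟩
  · intro j hj k hk
    have h1 := hA2 j hj k hk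
    rw [(key1 j hj).1] at h1
    rw [← not_lt, ← h1, Bool.not_eq_false]
  · intro j hj k hk
    have h0 := (key1 j hj).1
    have hkA : k < A j := by omega
    have h1 := (hmul k (by omega) (2 * j + 1) (by omega))
    have h2 := (hmul (k + s j) hk (2 * j) (by omega))
    have h3 := hC2 _ h1.1 _ h2.1 ((key1 j hj).2 k hkA) j hj
    have h4 : Elow j (lab (m * k + (2 * j + 1))) := by
      unfold Elow
      rw [hpos _ h1.1, hcell _ h1.1, h1.2.1, h1.2.2]
      exact ⟨rfl, (hA2 j hj k (by omega)).2 hkA⟩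
    have h5 := h3.2 h4
    rw [hcell _ h1.1, hcell _ h2.1, h1.2.2, h2.2.2] at h5
    exact h5

end Pool.Agent.H21.TW
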